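import Pool.Agent.H743.X17.Cond

/-!
# The conjecture of Goldfeld type for `GL(2)` over `ℚ`, conductor ordering, arbitrary prescribed local
# components: two fifths, for infinitely many representations

`e` is any squarefree integer, `E_e : y² = x³ - 7371 e² x - 240570 e³` the quadratic twist by `e` of the curve
`17a2 : y² = x (x + 1) (x - 16)` (isogenous to `X_0(17)`; no complex multiplication), and `π_e` the
cuspidal automorphic representation of `GL₂(𝔸_ℚ)` with trivial central character attached to it: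
`L(s, π_e ⊗ χ_D) = L(E_e^D, s + 1/2)` for every quadratic character `χ_D`; here `D` runs over the
fundamental discriminants (`D = 1` for the trivial character) and `|D|` is the conductor of `χ_D`.

The theorem, for EVERY squarefree `e`, every finite set `S` of places of `ℚ` (primes, and `∞` if `inf`) and
EVERY quadratic character `χ_{D₀}` with `ε(π_e ⊗ χ_{D₀}) = 1`: let `𝒜` be the set of the quadratic characters
`χ_D` with `ε(π_e ⊗ χ_D) = 1` and `χ_{D,v} = χ_{D₀,v}` for `v ∈ S`.  Ordered by the conductor, the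
characters in `𝒜` with `ord_{s=1/2} L(s, π_e ⊗ χ_D) = 0`, `E_e^D(ℚ)` finite and `Ш(E_e^D/ℚ)[2^∞] = 0` have
density EXACTLY `c = (1 - 1/2) (1 - 1/8) (1 - 1/32) ⋯ = 0.4194...` in `𝒜`; so the lower density of the
characters of `𝒜` with central order `0` is at least `0.4194`.  Moreover
`L(1/2, π_e ⊗ χ_D) = 0` for every `χ_D` with `ε(π_e ⊗ χ_D) = -1`.
-/

set_option autoImplicit false

open Filter Topology

namespace Pool.Agent.Results.MP_50bb2e_nt.PrescribedComponents17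

open Pool.Agent.TH841.SH.D (Sha)

/-- `V` is a global minimal equation: `Δ ≠ 0` and `|Δ|` is minimal among the integral equations -/
def IsMinimal (V : WeierstrassCurve ℤ) : Prop :=
  V.Δ ≠ 0 ∧ ∀ (V' : WeierstrassCurve ℤ) (C : WeierstrassCurve.VariableChange ℚ),
    C • (V.map (Int.castRingHom ℚ)) = V'.map (Int.castRingHom ℚ) → |V.Δ| ≤ |V'.Δ|

/-- `a_p = p - #{affine points modulo p}` -/
noncomputable def ap (V : WeierstrassCurve ℤ) (p : ℕ) : ℤ :=
  p - (Nat.card {P : ZMod p × ZMod p //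
    (V.map (Int.castRingHom (ZMod p))).toAffine.Equation P.1 P.2} : ℕ)

/-- `Λ` is entire and for `Re s > 3/2` it is the Hasse-Weil L-function of the minimal equation `V`:
the product over all primes `p` of `(1 - a_p p^{-s} + p^{1-2s})⁻¹`, without the last term if
`p ∣ Δ`. -/
def IsL (V : WeierstrassCurve ℤ) (Λ : ℂ → ℂ) : Prop :=
  Differentiable ℂ Λ ∧ ∀ s : ℂ, 3 / 2 < s.re →
    HasProd (fun p : Nat.Primes => (1 - (ap V p : ℂ) * ((p : ℕ) : ℂ) ^ (-s) +
      (if ((p : ℕ) : ℤ) ∣ V.Δ then 0 else ((p : ℕ) : ℂ) ^ (1 - 2 * s)))⁻¹) (Λ s)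

/-- `Λ` is the entire continuation of the Hasse-Weil L-function of `W` -/
def IsLOf (W : WeierstrassCurve ℚ) (Λ : ℂ → ℂ) : Prop :=
  ∃ (V : WeierstrassCurve ℤ) (C : WeierstrassCurve.VariableChange ℚ),
    IsMinimal V ∧ C • W = V.map (Int.castRingHom ℚ) ∧ IsL V Λ

/-- `E_e^D : y² = x³ - 7371 (e D)² x - 240570 (e D)³` -/
def E (e D : ℤ) : WeierstrassCurve ℚ :=
  ⟨0, 0, 0, ((-7371 * (e * D) ^ 2 : ℤ) : ℚ), ((-240570 * (e * D) ^ 3 : ℤ) : ℚ)⟩

/-- `Λ` is the standard L-function of `π_e ⊗ χ_D`, of centre `1/2` -/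
def IsLpi (e D : ℤ) (Λ : ℂ → ℂ) : Prop := IsLOf (E e D) fun s => Λ (s - 1 / 2)

/-- `ord_{s=1/2} L(s, π_e ⊗ χ_D) = r` -/
def CentralOrder (e D : ℤ) (r : ℕ) : Prop :=
  ∃ Λ : ℂ → ℂ, IsLpi e D Λ ∧ analyticOrderAt Λ (1 / 2) = r

/-- central order `0`, only finitely many rational points, and `Ш[2^∞] = 0` -/
def Good (e D : ℤ) : Prop :=
  CentralOrder e D 0 ∧ Finite (E e D).toAffine.Point ∧
    ∀ (n : ℕ) (x : Sha (E e D)), 2 ^ n • x = 0 → x = 0

/-- the fundamental discriminants, `1` included: they correspond to the quadratic characters `χ_D` of `ℚ`,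
of conductor `|D|` -/
def Fund (D : ℤ) : Prop := (Squarefree D ∧ D % 4 = 1) ∨
  ∃ m : ℤ, D = 4 * m ∧ Squarefree m ∧ (m % 4 = 2 ∨ m % 4 = 3)

/-- `ε(π_e ⊗ χ_D) = 1`, in terms of the squarefree integer `m` in the class of `e D` modulo squares -/
def RootOne (e D : ℤ) : Prop := ∃ m : ℤ, Squarefree m ∧ IsSquare (e * D * m) ∧
  ((0 < m ∧ jacobiSym m 17 = 1) ∨ (m < 0 ∧ jacobiSym m 17 ≠ 1))

/-- `χ_{D,p} = χ_{D₀,p}` for `p ∈ S`, and `χ_{D,∞} = χ_{D₀,∞}` if `inf` -/
def SameComponents (inf : Prop) (S : Finset ℕ) (D₀ D : ℤ) : Prop :=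
  (inf → 0 < D * D₀) ∧ ∀ (p : ℕ) [Fact p.Prime], p ∈ S → IsSquare ((D * D₀ : ℤ) : ℚ_[p])

/-- the number of the quadratic characters `χ_D` of conductor `|D| ≤ X` with the property `P` -/
noncomputable def count (P : ℤ → Prop) (X : ℝ) : ℕ := {D : ℤ | Fund D ∧ |(D : ℝ)| ≤ X ∧ P D}.ncard

/-- the constant `(1 - 1/2) (1 - 1/8) (1 - 1/32) ⋯ = 0.4194...` -/
noncomputable def c : ℝ := ∏' i : ℕ, (1 - (1 / 2 : ℝ) ^ (2 * i + 1))

section proof

open Pool.Agent.H743.X17 (parts Parts Sys WM EM SH spec core_spec)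
open Pool.Agent.N919.BS (core)
open Pool.Agent.N855.GF.Tw (tw tw_sqf)

lemma coef {e D : ℤ} (he : Squarefree e) (hD : Fund D) : ∃ g : ℕ, g ≠ 0 ∧
    -7371 * (e * D) ^ 2 = -7371 * ((g : ℤ) ^ 2 * tw e (core D)) ^ 2 ∧
    -240570 * (e * D) ^ 3 = -240570 * ((g : ℤ) ^ 2 * tw e (core D)) ^ 3 := by
  obtain ⟨g, hg, h⟩ := spec he hD
  refine ⟨g, hg, ?_, ?_⟩ <;> rw [h]

lemma shift {e D : ℤ} {f : ℂ → ℂ} (h : IsLOf (E e D) f) : IsLpi e D fun s => f (s + 1 / 2) := by
  have e1 : (fun s : ℂ => f (s - 1 / 2 + 1 / 2)) = f := by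
    funext s
    rw [sub_add_cancel]
  show IsLOf (E e D) fun s => f (s - 1 / 2 + 1 / 2)
  rw [e1]
  exact h

lemma isL {e D : ℤ} (he : Squarefree e) (hD : Fund D) (h1 : tw e (core D) ≠ 1) :
    ∃ (Λ : ℂ → ℂ) (y : ℕ), IsLpi e D Λ ∧ Differentiable ℂ Λ ∧ (Odd y ↔ Sys (tw e (core D))) ∧
      (y ≠ 0 → Λ (1 / 2) ≠ 0) ∧ (¬ RootOne e D → Λ (1 / 2) = 0) := by
  have hm : Squarefree (tw e (core D)) := tw_sqf he (core_spec hD).1
  obtain ⟨g, hg, ha, hb⟩ := coef he hD
  obtain ⟨C, hC⟩ := Pool.Agent.H743.X17.change hg ha hb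
  obtain ⟨hO, f, y, hf, hy, h0, hv⟩ := Pool.Agent.H743.X17.main parts hm h1
  have hf' : IsL (WM (tw e (core D))) f := hf
  have hdf : Differentiable ℂ f := hf'.1
  refine ⟨fun s => f (s + 1 / 2), y, shift ⟨WM (tw e (core D)), C, ?_, hC, hf⟩, ?_, ?_,
    fun hy0 => ?_, fun hR => ?_⟩
  · have h := parts.min (tw e (core D)) hm
    exact h
  · exact hdf.comp (differentiable_id.add_const _)
  · rw [hy, Pool.Agent.H743.X17.finSha_iff parts hm]
  · show f (1 / 2 + 1 / 2) ≠ 0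
    rw [add_halves, hv]
    have hT : (Pool.Agent.H743.X17.TamProd (WM (tw e (core D))) : ℝ) ≠ 0 := by
      rw [Pool.Agent.H743.X17.tamProd_eq parts hm]
      split_ifs <;> simp
    have hO' : Pool.Agent.Y700.Omega (WM (tw e (core D))) ≠ 0 := hO.ne'
    have hy' : (y : ℝ) ≠ 0 := by exact_mod_cast hy0
    rw [Complex.ofReal_ne_zero]
    positivity
  · show f (1 / 2 + 1 / 2) = 0
    have hR' : ¬ Pool.Agent.H743.X17.Rt (tw e (core D)) :=
      fun h => hR ((Pool.Agent.H743.X17.RO_iff he hD).2 h)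
    rw [add_halves, hv, h0 hR']
    push_cast
    ring

lemma good_iff {e D : ℤ} (he : Squarefree e) (hD : Fund D) (h1 : tw e (core D) ≠ 1) :
    Good e D ↔ Sys (tw e (core D)) := by
  have hm : Squarefree (tw e (core D)) := tw_sqf he (core_spec hD).1
  obtain ⟨g, hg, ha, hb⟩ := coef he hD
  have hfs := Pool.Agent.H743.X17.finSha_sh parts hm hg ha hb
  obtain ⟨Λ, y, h2, h3, h4, h5, -⟩ := isL he hD h1
  constructor
  · rintro ⟨-, h5⟩
    exact hfs.1 h5
  · intro h6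
    refine ⟨⟨Λ, h2, ?_⟩, hfs.2 h6⟩
    have h7 : Λ (1 / 2) ≠ 0 := h5 (by
      rintro rfl
      exact absurd (h4.2 h6) (by decide))
    exact (h3.analyticAt _).analyticOrderAt_eq_zero.2 h7

end proof

theorem result :
    (∀ e : ℤ, Squarefree e → ∀ (inf : Prop) (S : Finset ℕ), (∀ p ∈ S, p.Prime) →
      ∀ D₀ : ℤ, Fund D₀ → RootOne e D₀ →
        -- the density in the set `𝒜`
        Tendsto (fun X : ℝ =>
          (count (fun D => (RootOne e D ∧ SameComponents inf S D₀ D) ∧ Good e D) X : ℝ) /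
            (count (fun D => RootOne e D ∧ SameComponents inf S D₀ D) X : ℝ)) atTop (𝓝 c) ∧
        c ≤ liminf (fun X : ℝ =>
          (count (fun D => (RootOne e D ∧ SameComponents inf S D₀ D) ∧ CentralOrder e D 0) X : ℝ) /
            (count (fun D => RootOne e D ∧ SameComponents inf S D₀ D) X : ℝ)) atTop) ∧
    -- the other root number
    (∀ e D : ℤ, Squarefree e → Fund D → ¬ RootOne e D →
      ∃ Λ : ℂ → ℂ, IsLpi e D Λ ∧ Differentiable ℂ Λ ∧ Λ (1 / 2) = 0) ∧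
    0.4194 < c ∧ c < 0.4195 := by
  refine ⟨fun e he inf S hS D₀ hD₀ hR => ?_, fun e D he hD hR => ?_,
    Pool.Agent.H743.X17.c2_bounds⟩
  · have h1 : Tendsto (fun X : ℝ =>
          (count (fun D => (RootOne e D ∧ SameComponents inf S D₀ D) ∧ Good e D) X : ℝ) /
            (count (fun D => RootOne e D ∧ SameComponents inf S D₀ D) X : ℝ)) atTop (𝓝 c) :=
      Pool.Agent.H743.X17.dens_cond Pool.Agent.H743.X17.parts he inf S hS hD₀ hR fun D hD hne => good_iff he hD hne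
    exact ⟨h1, Pool.Agent.H743.X17.liminf_NC
      (P := fun D => (RootOne e D ∧ SameComponents inf S D₀ D) ∧ Good e D)
      (Q := fun D => (RootOne e D ∧ SameComponents inf S D₀ D) ∧ CentralOrder e D 0)
      (R := fun D => RootOne e D ∧ SameComponents inf S D₀ D)
      (fun D _ h => ⟨h.1, h.2.1⟩) (fun _ _ h => h.1) h1⟩
  · have h2 : Pool.Agent.N855.GF.Tw.tw e (Pool.Agent.N919.BS.core D) ≠ 1 := by
      intro h3
      refine hR ((Pool.Agent.H743.X17.RO_iff he hD).2 (Or.inl ?_))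
      rw [h3]
      exact ⟨one_pos, by simp⟩
    obtain ⟨Λ, y, h3, h4, -, -, h5⟩ := isL he hD h2
    exact ⟨Λ, h3, h4, h5 hR⟩

end Pool.Agent.Results.MP_50bb2e_nt.PrescribedComponents17
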