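import Pool.Agent.H468.G4.Cv
import Pool.Agent.H468.G4.LawF
import Pool.Graph.R_pool_sql_team_seeded_63374d34.N916.GB.Num

/-!
# The conjecture of Goldfeld type for `GL(2)` over `ℚ`: other levels, and several representations at the same
# time; conductor ordering, prescribed local components

`C_0 = 17a2 : y² = x³ - 7371 x - 240570` (conductor `17`), `C_1 = X_0(15) : y² = x³ - 12987 x - 263466`,
`C_2 = X_0(21) : y² = x³ - 5211 x - 31050`, `C_3 = X_0(24) : y² = x³ - 351 x + 1890`: no complex multiplication, four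
different isogeny classes.  `e` is any squarefree integer and `π_{j,e}` is the cuspidal automorphic
representation of `GL₂(𝔸_ℚ)` with trivial central character attached to the quadratic twist of `C_j` by `e`:
`L(s, π_{j,e} ⊗ χ_D) = L(E_{j,e}^D, s + 1/2)` for every quadratic character `χ_D`; `D` runs over the
fundamental discriminants (`D = 1` for the trivial character) and `|D|` is the conductor of `χ_D`.
`Good j e D`: the central order of `π_{j,e} ⊗ χ_D` is `0`, `E_{j,e}^D(ℚ)` is finite and `Ш(E_{j,e}^D/ℚ)[2^∞] = 0`.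

`S` is any finite set of places which contains `∞, 2, 3, 5, 7, 17` (so the root numbers of `π_{j,e} ⊗ χ_D` depend
only on the components at `S`), `χ_{D₀}` a quadratic character and `𝒜` the set of the quadratic characters with
the same components at `S`, ordered by the conductor.

(1) **One representation**, `j = 1, 2, 3`, EVERY `e`.  If `D₀` satisfies the local condition `Adm j e D₀` (such
`D₀` exist for all `j`, `e`), then the characters `χ_D ∈ 𝒜` for which `j e D` is Good have density EXACTLY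
`η = (1 - 1/2) (1 - 1/4) (1 - 1/8) ⋯ = 0.2887...` in `𝒜`; so the lower density in `𝒜` of central order `0` is
at least `0.2887`.

(2) **The joint law.**  Let `T` be a finite set of `e` with `Adm 0 e D₀` (the root number of `π_{0,e} ⊗ χ_{D₀}` is
`1`) and `T'` a finite set of `e` with `Adm j e D₀` for at least one `j > 0`.  For all `U ⊆ T`, `U' ⊆ T'` the
`χ_D ∈ 𝒜` such that `{e ∈ T : Good 0 e D} = U` and, for all `e ∈ T'` and ALL these `j`, `Good j e D` if and only if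
`e ∈ U'`, have density exactly `c^|U| (1 - c)^|T \ U| η^|U'| (1 - η)^|T' \ U'|` in `𝒜`,
`c = (1 - 1/2) (1 - 1/8) (1 - 1/32) ⋯ = 0.4194...`, and this is independent, in total variation, of the vector
`cls q D` of the numbers of the odd ramified primes of `χ_D` in the residue classes modulo `q`, for every `q`.
(3) So for every finite set of pairs `(j, e)` with `Adm j e D₀`, the central orders of ALL the
`π_{j,e} ⊗ χ_D` are `0` at the same time for `χ_D` of positive lower density in `𝒜`.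
-/

set_option autoImplicit false

open Filter Topology

namespace Pool.Agent.Results.MP_50bb2e_nt.SimultaneousOrderZero

open Pool.Agent.TH841.SH.D (Sha)

/-- `V` is a global minimal equation: `Δ ≠ 0` and `|Δ|` is minimal among the integral equations -/
def IsMinimal (V : WeierstrassCurve ℤ) : Prop :=
  V.Δ ≠ 0 ∧ ∀ (V' : WeierstrassCurve ℤ) (C : WeierstrassCurve.VariableChange ℚ),
    C • (V.map (Int.castRingHom ℚ)) = V'.map (Int.castRingHom ℚ) → |V.Δ| ≤ |V'.Δ|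

/-- `a_p = p - #{affine points modulo p}` -/
noncomputable def ap (V : WeierstrassCurve ℤ) (p : ℕ) : ℤ :=
  p - (Nat.card {P : ZMod p × ZMod p //
    (V.map (Int.castRingHom (ZMod p))).toAffine.Equation P.1 P.2} : ℕ)

/-- `Λ` is entire and for `Re s > 3/2` it is the Hasse-Weil L-function of the minimal equation `V`:
the product over all primes `p` of `(1 - a_p p^{-s} + p^{1-2s})⁻¹`, without the last term if
`p ∣ Δ`. -/
def IsL (V : WeierstrassCurve ℤ) (Λ : ℂ → ℂ) : Prop :=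
  Differentiable ℂ Λ ∧ ∀ s : ℂ, 3 / 2 < s.re →
    HasProd (fun p : Nat.Primes => (1 - (ap V p : ℂ) * ((p : ℕ) : ℂ) ^ (-s) +
      (if ((p : ℕ) : ℤ) ∣ V.Δ then 0 else ((p : ℕ) : ℂ) ^ (1 - 2 * s)))⁻¹) (Λ s)

/-- `Λ` is the entire continuation of the Hasse-Weil L-function of `W` -/
def IsLOf (W : WeierstrassCurve ℚ) (Λ : ℂ → ℂ) : Prop :=
  ∃ (V : WeierstrassCurve ℤ) (C : WeierstrassCurve.VariableChange ℚ),
    IsMinimal V ∧ C • W = V.map (Int.castRingHom ℚ) ∧ IsL V Λ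

/-- the coefficients of `C_j : y² = x³ + cA j x + cB j`: `17a2`, `X_0(15)`, `X_0(21)`, `X_0(24)` -/
def cA (j : Fin 4) : ℤ := match j with | 0 => -7371 | 1 => -12987 | 2 => -5211 | 3 => -351

/-- see `cA` -/
def cB (j : Fin 4) : ℤ := match j with | 0 => -240570 | 1 => -263466 | 2 => -31050 | 3 => 1890

/-- `E_{j,e}^D : y² = x³ + cA j (e D)² x + cB j (e D)³` -/
def E (j : Fin 4) (e D : ℤ) : WeierstrassCurve ℚ :=
  ⟨0, 0, 0, ((cA j * (e * D) ^ 2 : ℤ) : ℚ), ((cB j * (e * D) ^ 3 : ℤ) : ℚ)⟩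

/-- `Λ` is the standard L-function of `π_{j,e} ⊗ χ_D`, of centre `1/2` -/
def IsLpi (j : Fin 4) (e D : ℤ) (Λ : ℂ → ℂ) : Prop := IsLOf (E j e D) fun s => Λ (s - 1 / 2)

/-- `ord_{s=1/2} L(s, π_{j,e} ⊗ χ_D) = r` -/
def CentralOrder (j : Fin 4) (e D : ℤ) (r : ℕ) : Prop :=
  ∃ Λ : ℂ → ℂ, IsLpi j e D Λ ∧ analyticOrderAt Λ (1 / 2) = r

/-- central order `0`, only finitely many rational points, and `Ш[2^∞] = 0` -/
def Good (j : Fin 4) (e D : ℤ) : Prop :=
  CentralOrder j e D 0 ∧ Finite (E j e D).toAffine.Point ∧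
    ∀ (n : ℕ) (x : Sha (E j e D)), 2 ^ n • x = 0 → x = 0

/-- the fundamental discriminants, `1` included: they correspond to the quadratic characters `χ_D` of `ℚ`,
of conductor `|D|` -/
def Fund (D : ℤ) : Prop := (Squarefree D ∧ D % 4 = 1) ∨
  ∃ m : ℤ, D = 4 * m ∧ Squarefree m ∧ (m % 4 = 2 ∨ m % 4 = 3)

/-- the local conditions for the twist of `C_j` by the squarefree integer `m`; for `j = 0` the root number is
`1` -/
def Fam (j : Fin 4) (m : ℤ) : Prop := match j with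
  | 0 => (0 < m ∧ jacobiSym m 17 = 1) ∨ (m < 0 ∧ jacobiSym m 17 ≠ 1)
  | 1 => m < 0 ∧ (m % 60 = 13 ∨ m % 60 = 37)
  | 2 => m < 0 ∧ m % 3 ≠ 1 ∧ (m % 7 = 0 ∨ m % 7 = 1 ∨ m % 7 = 2 ∨ m % 7 = 4)
  | 3 => m < 0 ∧ m % 24 = 13

/-- the local condition for `π_{j,e} ⊗ χ_D`: `m` is the squarefree integer in the class of `e D` modulo
squares -/
def Adm (j : Fin 4) (e D : ℤ) : Prop := ∃ m : ℤ, Squarefree m ∧ IsSquare (e * D * m) ∧ Fam j m

/-- `χ_{D,∞} = χ_{D₀,∞}`, and `χ_{D,p} = χ_{D₀,p}` for `p ∈ S` -/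
def SameComponents (S : Finset ℕ) (D₀ D : ℤ) : Prop :=
  0 < D * D₀ ∧ ∀ (p : ℕ) [Fact p.Prime], p ∈ S → IsSquare ((D * D₀ : ℤ) : ℚ_[p])

/-- the pattern: for `e ∈ T`, `Good 0 e D` exactly for `e ∈ U`; for `e ∈ T'` and all `j ≠ 0` with `Adm j e D₀`,
`Good j e D` exactly for `e ∈ U'` -/
def Pattern (T U T' U' : Finset ℤ) (D₀ D : ℤ) : Prop :=
  (∀ e ∈ T, (Good 0 e D ↔ e ∈ U)) ∧
    ∀ e ∈ T', ∀ j : Fin 4, j ≠ 0 → Adm j e D₀ → (Good j e D ↔ e ∈ U')

/-- the numbers of the odd prime factors of `D` in the residue classes modulo `q` -/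
def cls (q : ℕ) (D : ℤ) (a : ℕ) : ℕ := ((D.natAbs.primeFactors.erase 2).filter fun p => p % q = a).card

/-- the number of the quadratic characters `χ_D` of conductor `|D| ≤ X` with the property `P` -/
noncomputable def count (P : ℤ → Prop) (X : ℝ) : ℕ := {D : ℤ | Fund D ∧ |(D : ℝ)| ≤ X ∧ P D}.ncard

/-- the constant `(1 - 1/2) (1 - 1/8) (1 - 1/32) ⋯ = 0.4194...` -/
noncomputable def c : ℝ := ∏' i : ℕ, (1 - (1 / 2 : ℝ) ^ (2 * i + 1))

/-- the constant `(1 - 1/2) (1 - 1/4) (1 - 1/8) ⋯ = 0.2887...` -/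
noncomputable def η : ℝ := ∏' i : ℕ, (1 - (1 / 2 : ℝ) ^ (i + 1))

/-- the density of the pattern -/
noncomputable def κ (T U T' U' : Finset ℤ) : ℝ :=
  c ^ U.card * (1 - c) ^ (T \ U).card * (η ^ U'.card * (1 - η) ^ (T' \ U').card)

section proof

open Pool.Agent.H743.X17 (parts Parts Sys WM EM SH spec core_spec NC SL Rt)
open Pool.Agent.N919.BS (core)
open Pool.Agent.H743.JL (H4 al3 be3 tw)
open Pool.Agent.H468.WM (opf cnt)
open Pool.Agent.H468.WJ (Pat kp)
open Pool.Agent.H468.G4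

lemma good_mk {j : Fin 4} {e D : ℤ} {V : WeierstrassCurve ℤ} {f : ℂ → ℂ} (hV : IsMinimal V)
    (hC : ∃ C : WeierstrassCurve.VariableChange ℚ, C • E j e D = V.map (Int.castRingHom ℚ))
    (hL : IsL V f) (h1 : f 1 ≠ 0) (hF : Pool.Agent.H743.X17.FinSha (E j e D)) : Good j e D := by
  obtain ⟨C, hC⟩ := hC
  refine ⟨⟨fun s => f (s + 1 / 2), ?_, ?_⟩, hF⟩
  · have e1 : (fun s : ℂ => f (s - 1 / 2 + 1 / 2)) = f := by
      funext s
      rw [sub_add_cancel]
    show IsLOf (E j e D) fun s => f (s - 1 / 2 + 1 / 2)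
    rw [e1]
    exact ⟨V, C, hV, hC, hL⟩
  · have h2 : Differentiable ℂ fun s => f (s + 1 / 2) := hL.1.comp (differentiable_id.add_const _)
    refine (h2.analyticAt _).analyticOrderAt_eq_zero.2 ?_
    show f (1 / 2 + 1 / 2) ≠ 0
    rw [add_halves]
    exact h1

lemma adm_iff {j : Fin 4} {e D : ℤ} (he : Squarefree e) (hD : Fund D) :
    Adm j e D ↔ Fam j (tw e (core D)) := by
  obtain ⟨g, hg, h⟩ := spec he hD
  have h' : e * D = (g : ℤ) ^ 2 * tw e (core D) := h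
  have hgz : (g : ℤ) ≠ 0 := by exact_mod_cast hg
  have hsq : Squarefree (tw e (core D)) := tw_sf he (core_spec hD).1
  constructor
  · rintro ⟨m, h1, h2, h3⟩
    have h4 : m = tw e (core D) := by
      refine Pool.Agent.H743.X17.sqf_eq hsq h1 (Pool.Agent.H743.X17.sq_of_mul hgz ?_)
      rw [h'] at h2
      rwa [mul_assoc] at h2
    rw [← h4]
    exact h3
  · intro h3
    refine ⟨tw e (core D), hsq, ⟨g * tw e (core D), ?_⟩, h3⟩
    rw [h']
    ring

/-! #### conductor 17 -/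

lemma good0 {e D : ℤ} (he : Squarefree e) (hD : Fund D) (h1 : tw e (core D) ≠ 1) :
    Good 0 e D ↔ Sys (tw e (core D)) := by
  have hm : Squarefree (tw e (core D)) := tw_sf he (core_spec hD).1
  obtain ⟨g, hg, h⟩ := spec he hD
  have h' : e * D = (g : ℤ) ^ 2 * tw e (core D) := h
  have ha : cA 0 * (e * D) ^ 2 = -7371 * ((g : ℤ) ^ 2 * tw e (core D)) ^ 2 := by
    rw [h']
    rfl
  have hb : cB 0 * (e * D) ^ 3 = -240570 * ((g : ℤ) ^ 2 * tw e (core D)) ^ 3 := by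
    rw [h']
    rfl
  have hfs := Pool.Agent.H743.X17.finSha_sh parts hm hg ha hb
  refine ⟨fun h => hfs.1 h.2, fun h => ?_⟩
  obtain ⟨C, hC⟩ := Pool.Agent.H743.X17.change hg ha hb
  obtain ⟨hO, f, y, hf, hy, h0, hv⟩ := Pool.Agent.H743.X17.main parts hm h1
  have hyo : Odd y := hy.2 ((Pool.Agent.H743.X17.finSha_iff parts hm).2 h)
  refine good_mk (V := WM (tw e (core D))) (f := f) (parts.min (tw e (core D)) hm) ⟨C, hC⟩ hf ?_
    (hfs.2 h)
  rw [hv]
  have hT : (Pool.Agent.H743.X17.TamProd (WM (tw e (core D))) : ℝ) ≠ 0 := by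
    rw [Pool.Agent.H743.X17.tamProd_eq parts hm]
    split_ifs <;> simp
  have hO' : Pool.Agent.Y700.Omega (WM (tw e (core D))) ≠ 0 := hO.ne'
  have hy' : (y : ℝ) ≠ 0 := by
    have : y ≠ 0 := by
      rintro rfl
      exact absurd hyo (by decide)
    exact_mod_cast this
  rw [Complex.ofReal_ne_zero]
  positivity

/-! #### `X_0(15)`, `X_0(21)`, `X_0(24)` -/

lemma cA_succ (i : Fin 3) : cA i.succ = -27 * al3 i := by
  fin_cases i <;> norm_num [cA, al3]

lemma cB_succ (i : Fin 3) : cB i.succ = -54 * be3 i := by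
  fin_cases i <;> norm_num [cB, be3]

lemma fam_succ (i : Fin 3) (m : ℤ) : Fam i.succ m ↔ Pool.Agent.H743.JL.Fam i m := by
  fin_cases i <;> exact Iff.rfl

lemma good4 (i : Fin 3) {e D : ℤ} (he : Squarefree e) (hD : Fund D)
    (hF : Pool.Agent.H743.JL.Fam i (tw e (core D))) : Good i.succ e D ↔ H4 (tw e (core D)) := by
  have hm : Squarefree (tw e (core D)) := tw_sf he (core_spec hD).1
  obtain ⟨g, hg, h⟩ := spec he hD
  have h' : e * D = (g : ℤ) ^ 2 * tw e (core D) := h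
  have hgq : (g : ℚ) ≠ 0 := by exact_mod_cast hg
  have ha : ((cA i.succ * (e * D) ^ 2 : ℤ) : ℚ) =
      -27 * (al3 i : ℚ) * ((g : ℚ) ^ 2 * (tw e (core D) : ℤ)) ^ 2 := by
    rw [cA_succ, h']
    push_cast
    ring
  have hb : ((cB i.succ * (e * D) ^ 3 : ℤ) : ℚ) =
      -54 * (be3 i : ℚ) * ((g : ℚ) ^ 2 * (tw e (core D) : ℤ)) ^ 3 := by
    rw [cB_succ, h']
    push_cast
    ring
  obtain ⟨h1, h2, h3, Λ, h4, h5⟩ := short i hm hF hgq ha hb
  exact ⟨fun h => h1.1 h.2, fun h => good_mk h2 h3 h4 (h5 h) (h1.2 h)⟩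

lemma fin4 {j : Fin 4} (hj : j ≠ 0) : ∃ i : Fin 3, j = i.succ := by
  obtain ⟨i, hi⟩ := Fin.exists_succ_eq.2 hj
  exact ⟨i, hi.symm⟩

lemma fam_neg {j : Fin 4} (hj : j ≠ 0) {m : ℤ} (h : Fam j m) : m < 0 := by
  obtain ⟨i, rfl⟩ := fin4 hj
  fin_cases i <;> exact h.1

lemma same_eq (S : Finset ℕ) (D₀ D : ℤ) : SameComponents S D₀ D ↔ SL True S D₀ D :=
  ⟨fun h => ⟨fun _ => h.1, h.2⟩, fun h => ⟨h.1 trivial, h.2⟩⟩

lemma pattern_iff {S : Finset ℕ} {D₀ : ℤ} {T T' : Finset ℤ} (hS2 : {2, 3, 5, 7, 17} ⊆ S)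
    (h0 : Fund D₀) (hT : ∀ e ∈ T, Squarefree e ∧ Adm 0 e D₀)
    (hT' : ∀ e ∈ T', Squarefree e ∧ ∃ j, j ≠ 0 ∧ Adm j e D₀) (U U' : Finset ℤ) {D : ℤ}
    (hD : Fund D) (hdT : core D ∉ T) (h : SL True S D₀ D) :
    Pattern T U T' U' D₀ D ↔ Pat T U T' U' (core D) := by
  have hs0 := (core_spec h0).1
  have hs := (core_spec hD).1
  have key : ∀ (i : Fin 3) (e : ℤ), e ∈ T' → Adm i.succ e D₀ →
      (Good i.succ e D ↔ H4 (tw e (core D))) := by
    intro i e he hf
    refine good4 i (hT' e he).1 hD ?_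
    exact fam_cls i (hT' e he).1 hs0 hs (hS2 (by simp)) (hS2 (by simp)) (hS2 (by simp))
      (hS2 (by simp)) ((sl_loc h0 hD).1 h) ((fam_succ i _).1 ((adm_iff (hT' e he).1 h0).1 hf))
  have key0 : ∀ e ∈ T, (Good 0 e D ↔ Sys (tw e (core D))) := by
    intro e he
    refine good0 (hT e he).1 hD fun h1 => hdT ?_
    rw [Pool.Agent.H743.X17.tw_one (hT e he).1 hs h1]
    exact he
  constructor
  · rintro ⟨h1, h2⟩
    refine ⟨fun e he => ?_, fun e he => ?_⟩
    · exact (key0 e he).symm.trans (h1 e he)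
    · obtain ⟨-, j, hj, hf⟩ := hT' e he
      obtain ⟨i, rfl⟩ := fin4 hj
      exact (key i e he hf).symm.trans (h2 e he _ hj hf)
  · rintro ⟨h1, h2⟩
    refine ⟨fun e he => ?_, fun e he j hj hf => ?_⟩
    · exact (key0 e he).trans (h1 e he)
    · obtain ⟨i, rfl⟩ := fin4 hj
      exact (key i e he hf).trans (h2 e he)

lemma main {S : Finset ℕ} {D₀ : ℤ} {T T' : Finset ℤ} (hS : ∀ p ∈ S, p.Prime)
    (hS2 : {2, 3, 5, 7, 17} ⊆ S) (h0 : Fund D₀)
    (hT : ∀ e ∈ T, Squarefree e ∧ Adm 0 e D₀)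
    (hT' : ∀ e ∈ T', Squarefree e ∧ ∃ j, j ≠ 0 ∧ Adm j e D₀) {U U' : Finset ℤ} (hU : U ⊆ T)
    (hU' : U' ⊆ T') :
    Tendsto (fun X : ℝ => (count (fun D => SameComponents S D₀ D ∧ Pattern T U T' U' D₀ D) X : ℝ) /
      count (SameComponents S D₀) X) atTop (𝓝 (κ T U T' U')) ∧
    ∀ q : ℕ, 0 < q → ∀ ε : ℝ, 0 < ε → ∃ X₀ : ℝ, ∀ X : ℝ, X₀ ≤ X → ∀ V : Set (ℕ → ℕ),
      |(count (fun D => SameComponents S D₀ D ∧ Pattern T U T' U' D₀ D ∧ cls q D ∈ V) X : ℝ) -
        κ T U T' U' * count (fun D => SameComponents S D₀ D ∧ cls q D ∈ V) X| ≤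
          ε * count (SameComponents S D₀) X := by
  have h17 : 17 ∈ S := hS2 (by simp)
  obtain ⟨δ, X₁, hδ, hlow⟩ := lowF' S h0 hS
  have hcl : SameComponents S D₀ = SL True S D₀ := funext fun D => propext (same_eq S D₀ D)
  have base : ∀ q : ℕ, 0 < q → ∀ ε : ℝ, 0 < ε → ∃ X₀ : ℝ, ∀ X : ℝ, X₀ ≤ X → ∀ V : Set (ℕ → ℕ),
      |(NC (fun D => SL True S D₀ D ∧ Pattern T U T' U' D₀ D ∧ cnt q (opf D) ∈ V) X : ℝ) -
        κ T U T' U' * NC (fun D => SL True S D₀ D ∧ cnt q (opf D) ∈ V) X| ≤ ε * X := by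
    intro q hq ε hε
    exact lawF T T' S h0 (fun e he => ⟨(hT e he).1, (adm_iff (hT e he).1 h0).1 (hT e he).2⟩)
      (fun e he => ⟨(hT' e he).1, by
        obtain ⟨-, j, hj, hf⟩ := hT' e he
        exact fam_neg hj ((adm_iff (hT' e he).1 h0).1 hf)⟩) hS h17 hq hU hU' T
      (fun D hD hdT h => pattern_iff hS2 h0 hT hT' U U' hD hdT h) ε hε
  constructor
  · rw [hcl]
    refine limF (SL True S D₀) (Pattern T U T' U' D₀) _ hδ hlow fun ε hε => ?_
    obtain ⟨X₀, h⟩ := base 1 one_pos ε hε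
    refine ⟨X₀, fun X hX => ?_⟩
    have h1 := h X hX Set.univ
    simpa only [Set.mem_univ, and_true] using h1
  · intro q hq ε hε
    obtain ⟨X₀, h⟩ := base q hq (ε * δ) (by positivity)
    refine ⟨max (max X₀ X₁) 0, fun X hX V => ?_⟩
    have a1 : X₀ ≤ X := (le_max_left _ _).trans ((le_max_left _ _).trans hX)
    have a2 : X₁ ≤ X := (le_max_right _ _).trans ((le_max_left _ _).trans hX)
    have h1 := h X a1 V
    have h2 := hlow X a2
    rw [hcl]
    refine le_trans h1 ?_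
    calc ε * δ * X = ε * (δ * X) := by ring
      _ ≤ ε * (NC (SL True S D₀) X : ℝ) := mul_le_mul_of_nonneg_left h2 hε.le

lemma c_pos : 0 < c := by
  have h : 0.4194 < c := Pool.Agent.H743.X17.c2_bounds.1
  linarith

lemma η_pos : 0 < η := by
  have h : 0.2887 < η := Pool.Agent.N916.GB.eta_bounds.1
  linarith

/-- one representation -/
lemma one {j : Fin 4} (hj : j ≠ 0) {e : ℤ} (he : Squarefree e) {S : Finset ℕ} {D₀ : ℤ}
    (hS : ∀ p ∈ S, p.Prime) (hS2 : {2, 3, 5, 7, 17} ⊆ S) (h0 : Fund D₀) (hA : Adm j e D₀) :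
    Tendsto (fun X : ℝ => (count (fun D => SameComponents S D₀ D ∧ Good j e D) X : ℝ) /
      count (SameComponents S D₀) X) atTop (𝓝 η) := by
  classical
  obtain ⟨h1, -⟩ := main (T := ∅) (T' := {e}) hS hS2 h0 (fun e he => absurd he (Finset.notMem_empty e))
    (fun e' he' => by
      rw [Finset.mem_singleton.1 he']
      exact ⟨he, j, hj, hA⟩) (Finset.Subset.refl ∅) (Finset.Subset.refl {e})
  have e1 : κ ∅ ∅ {e} {e} = η := by
    unfold κ
    simp
  rw [e1] at h1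
  refine h1.congr fun X => ?_
  congr 2
  obtain ⟨δ, X₁, hδ, hlow⟩ := lowF' S h0 hS
  refine le_antisymm (Pool.Agent.H743.X17.NC_mono (fun D hD h => ⟨h.1, ?_⟩) X)
    (Pool.Agent.H743.X17.NC_mono (fun D hD h => ⟨h.1, ?_⟩) X)
  · exact (h.2.2 e (Finset.mem_singleton_self e) j hj hA).2 (Finset.mem_singleton_self e)
  · refine ⟨fun e' he' => absurd he' (Finset.notMem_empty e'), fun e' he' j' hj' hA' => ?_⟩
    have hee := Finset.mem_singleton.1 he'
    subst hee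
    refine ⟨fun _ => Finset.mem_singleton_self _, fun _ => ?_⟩
    have hsl := (same_eq S D₀ D).1 h.1
    have f1 : ∀ k : Fin 4, k ≠ 0 → Adm k e' D₀ → (Good k e' D ↔ H4 (tw e' (core D))) := by
      intro k hk hkA
      obtain ⟨i, rfl⟩ := fin4 hk
      refine good4 i he hD ?_
      exact fam_cls i he (core_spec h0).1 (core_spec hD).1 (hS2 (by simp)) (hS2 (by simp))
        (hS2 (by simp)) (hS2 (by simp)) ((sl_loc h0 hD).1 hsl)
        ((fam_succ i _).1 ((adm_iff he h0).1 hkA))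
    exact (f1 j' hj' hA').2 ((f1 j hj hA).1 h.2)

/-- the local conditions can be satisfied -/
lemma exists_adm (j : Fin 4) {e : ℤ} (he : Squarefree e) : ∃ D₀ : ℤ, Fund D₀ ∧ Adm j e D₀ := by
  obtain ⟨s, hs, hf⟩ : ∃ s : ℤ, Squarefree s ∧ Fam j s := by
    have h3 : Squarefree (-3 : ℤ) := by
      rw [← Int.squarefree_natAbs]
      exact (by norm_num : Nat.Prime 3).squarefree
    have h23 : Squarefree (-23 : ℤ) := by
      rw [← Int.squarefree_natAbs]
      exact (by norm_num : Nat.Prime 23).squarefree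
    have h11 : Squarefree (-11 : ℤ) := by
      rw [← Int.squarefree_natAbs]
      exact (by norm_num : Nat.Prime 11).squarefree
    fin_cases j
    · exact ⟨-3, h3, Or.inr ⟨by norm_num, by norm_num⟩⟩
    · exact ⟨-23, h23, by norm_num, by norm_num⟩
    · exact ⟨-3, h3, by norm_num, by norm_num, by norm_num⟩
    · exact ⟨-11, h11, by norm_num, by norm_num⟩
  obtain ⟨g, hg, h⟩ := Pool.Agent.H743.X17.tw_spec he hs
  have h' : e * s = (g : ℤ) ^ 2 * tw e s := h
  have hsq : Squarefree (tw e s) := tw_sf he hs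
  have h4 : tw e s % 4 ≠ 0 := fun h0 => not4 hsq (Int.dvd_of_emod_eq_zero h0)
  have hx : e * (tw e s) * s * (g : ℤ) ^ 2 = (e * s) * (e * s) := by
    rw [mul_assoc (e * tw e s), mul_comm s, ← mul_assoc]
    linear_combination (-(e * s)) * h'
  have hsq2 : IsSquare (e * tw e s * s) := by
    refine Pool.Agent.H743.X17.sq_of_mul (g := (g : ℤ)) (by exact_mod_cast hg) ⟨e * s, ?_⟩
    rw [mul_comm]
    exact hx
  by_cases h1 : tw e s % 4 = 1
  · exact ⟨tw e s, Or.inl ⟨hsq, h1⟩, s, hs, hsq2, hf⟩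
  · refine ⟨4 * tw e s, Or.inr ⟨tw e s, rfl, hsq, by omega⟩, s, hs, ?_, hf⟩
    obtain ⟨r, hr⟩ := hsq2
    exact ⟨2 * r, by linear_combination 4 * hr⟩

open Classical in
/-- all the representations of a finite set -/
lemma all_of {S : Finset ℕ} {D₀ : ℤ} (hS : ∀ p ∈ S, p.Prime) (hS2 : {2, 3, 5, 7, 17} ⊆ S)
    (h0 : Fund D₀) (F : Finset (Fin 4 × ℤ)) (hF : ∀ f ∈ F, Squarefree f.2 ∧ Adm f.1 f.2 D₀) :
    c ^ (F.filter fun f => f.1 = 0).card * η ^ (F.filter fun f => f.1 ≠ 0).card ≤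
      liminf (fun X : ℝ =>
        (count (fun D => SameComponents S D₀ D ∧ ∀ f ∈ F, CentralOrder f.1 f.2 D 0) X : ℝ) /
          count (SameComponents S D₀) X) atTop := by
  obtain ⟨T, hT⟩ : ∃ T : Finset ℤ, T = (F.filter fun f => f.1 = 0).image Prod.snd := ⟨_, rfl⟩
  obtain ⟨T', hT'⟩ : ∃ T' : Finset ℤ, T' = (F.filter fun f => f.1 ≠ 0).image Prod.snd := ⟨_, rfl⟩
  have mT : ∀ e ∈ T, Squarefree e ∧ Adm 0 e D₀ := by
    intro e he
    rw [hT, Finset.mem_image] at he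
    obtain ⟨f, hf, rfl⟩ := he
    rw [Finset.mem_filter] at hf
    have := hF f hf.1
    rw [hf.2] at this
    exact this
  have mT' : ∀ e ∈ T', Squarefree e ∧ ∃ j, j ≠ 0 ∧ Adm j e D₀ := by
    intro e he
    rw [hT', Finset.mem_image] at he
    obtain ⟨f, hf, rfl⟩ := he
    rw [Finset.mem_filter] at hf
    exact ⟨(hF f hf.1).1, f.1, hf.2, (hF f hf.1).2⟩
  obtain ⟨h1, -⟩ := main hS hS2 h0 mT mT' (Finset.Subset.refl T) (Finset.Subset.refl T')
  have hκ : κ T T T' T' = c ^ T.card * η ^ T'.card := by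
    unfold κ
    rw [Finset.sdiff_self, Finset.sdiff_self, Finset.card_empty, pow_zero, pow_zero, mul_one,
      mul_one]
  have h2 : κ T T T' T' ≤ liminf (fun X : ℝ =>
        (count (fun D => SameComponents S D₀ D ∧ ∀ f ∈ F, CentralOrder f.1 f.2 D 0) X : ℝ) /
          count (SameComponents S D₀) X) atTop := by
    refine Pool.Agent.H743.X17.liminf_NC
      (P := fun D => SameComponents S D₀ D ∧ Pattern T T T' T' D₀ D)
      (Q := fun D => SameComponents S D₀ D ∧ ∀ f ∈ F, CentralOrder f.1 f.2 D 0)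
      (R := SameComponents S D₀) (fun D _ h => ⟨h.1, fun f hf => ?_⟩) (fun _ _ h => h.1) h1
    obtain ⟨-, p1, p2⟩ := h
    by_cases hf0 : f.1 = 0
    · have hm : f.2 ∈ T := by
        rw [hT]
        exact Finset.mem_image.2 ⟨f, Finset.mem_filter.2 ⟨hf, hf0⟩, rfl⟩
      have := (p1 _ hm).2 hm
      rw [hf0]
      exact this.1
    · have hm : f.2 ∈ T' := by
        rw [hT']
        exact Finset.mem_image.2 ⟨f, Finset.mem_filter.2 ⟨hf, hf0⟩, rfl⟩
      exact ((p2 _ hm f.1 hf0 (hF f hf).2).2 hm).1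
  refine le_trans ?_ h2
  rw [hκ]
  have hc1 : c ≤ 1 := by
    have h : c < 0.4195 := Pool.Agent.H743.X17.c2_bounds.2
    linarith
  have hη1 : η ≤ 1 := by
    have h : η < 0.2889 := Pool.Agent.N916.GB.eta_bounds.2
    linarith
  have k1 : T.card ≤ (F.filter fun f => f.1 = 0).card := by
    rw [hT]
    exact Finset.card_image_le
  have k2 : T'.card ≤ (F.filter fun f => f.1 ≠ 0).card := by
    rw [hT']
    exact Finset.card_image_le
  exact mul_le_mul (pow_le_pow_of_le_one c_pos.le hc1 k1) (pow_le_pow_of_le_one η_pos.le hη1 k2)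
    (pow_nonneg η_pos.le _) (pow_nonneg c_pos.le _)

end proof

theorem result :
    -- (1) one representation, of level 15, 21, 24, and its quadratic twists
    (∀ (j : Fin 4) (e : ℤ), j ≠ 0 → Squarefree e → (∃ D₀ : ℤ, Fund D₀ ∧ Adm j e D₀) ∧
      ∀ (S : Finset ℕ) (D₀ : ℤ), (∀ p ∈ S, p.Prime) → {2, 3, 5, 7, 17} ⊆ S → Fund D₀ → Adm j e D₀ →
        Tendsto (fun X : ℝ => (count (fun D => SameComponents S D₀ D ∧ Good j e D) X : ℝ) /
          count (SameComponents S D₀) X) atTop (𝓝 η) ∧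
        η ≤ liminf (fun X : ℝ =>
          (count (fun D => SameComponents S D₀ D ∧ CentralOrder j e D 0) X : ℝ) /
            count (SameComponents S D₀) X) atTop) ∧
    -- (2) the joint law
    (∀ (S : Finset ℕ) (D₀ : ℤ) (T T' : Finset ℤ), (∀ p ∈ S, p.Prime) → {2, 3, 5, 7, 17} ⊆ S →
      Fund D₀ → (∀ e ∈ T, Squarefree e ∧ Adm 0 e D₀) →
      (∀ e ∈ T', Squarefree e ∧ ∃ j, j ≠ 0 ∧ Adm j e D₀) → ∀ U ⊆ T, ∀ U' ⊆ T',
      Tendsto (fun X : ℝ =>
        (count (fun D => SameComponents S D₀ D ∧ Pattern T U T' U' D₀ D) X : ℝ) /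
          count (SameComponents S D₀) X) atTop (𝓝 (κ T U T' U')) ∧
      ∀ q : ℕ, 0 < q → ∀ ε : ℝ, 0 < ε → ∃ X₀ : ℝ, ∀ X : ℝ, X₀ ≤ X → ∀ V : Set (ℕ → ℕ),
        |(count (fun D => SameComponents S D₀ D ∧ Pattern T U T' U' D₀ D ∧ cls q D ∈ V) X : ℝ) -
          κ T U T' U' * count (fun D => SameComponents S D₀ D ∧ cls q D ∈ V) X| ≤
            ε * count (SameComponents S D₀) X) ∧
    -- (3) all the representations of a finite set at once
    (∀ (F : Finset (Fin 4 × ℤ)) (S : Finset ℕ) (D₀ : ℤ), (∀ p ∈ S, p.Prime) →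
      {2, 3, 5, 7, 17} ⊆ S → Fund D₀ → (∀ f ∈ F, Squarefree f.2 ∧ Adm f.1 f.2 D₀) →
      c ^ (F.filter fun f => f.1 = 0).card * η ^ (F.filter fun f => f.1 ≠ 0).card ≤
        liminf (fun X : ℝ =>
          (count (fun D => SameComponents S D₀ D ∧ ∀ f ∈ F, CentralOrder f.1 f.2 D 0) X : ℝ) /
            count (SameComponents S D₀) X) atTop ∧
      0 < liminf (fun X : ℝ => (count (SameComponents S D₀) X : ℝ) / count (fun _ => True) X)
        atTop) ∧
    0.4194 < c ∧ c < 0.4195 ∧ 0.2887 < η ∧ η < 0.2889 := by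
  classical
  refine ⟨fun j e hj he => ⟨exists_adm j he, fun S D₀ hS hS2 h0 hA => ?_⟩, ?_, ?_,
    Pool.Agent.H743.X17.c2_bounds.1, Pool.Agent.H743.X17.c2_bounds.2,
    Pool.Agent.N916.GB.eta_bounds.1, Pool.Agent.N916.GB.eta_bounds.2⟩
  · have h1 := one hj he hS hS2 h0 hA
    refine ⟨h1, Pool.Agent.H743.X17.liminf_NC
      (P := fun D => SameComponents S D₀ D ∧ Good j e D)
      (Q := fun D => SameComponents S D₀ D ∧ CentralOrder j e D 0)
      (R := SameComponents S D₀) (fun D _ h => ⟨h.1, h.2.1⟩) (fun _ _ h => h.1) h1⟩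
  · intro S D₀ T T' hS hS2 h0 hT hT' U hU U' hU'
    exact main hS hS2 h0 hT hT' hU hU'
  · intro F S D₀ hS hS2 h0 hF
    refine ⟨all_of hS hS2 h0 F hF, ?_⟩
    obtain ⟨δ, X₁, hδ, hlow⟩ := Pool.Agent.H468.G4.lowF' S h0 hS
    have hcl : SameComponents S D₀ = Pool.Agent.H743.X17.SL True S D₀ :=
      funext fun D => propext (same_eq S D₀ D)
    rw [hcl]
    exact Pool.Agent.H468.G4.pos_liminfF _ hδ hlow

end Pool.Agent.Results.MP_50bb2e_nt.SimultaneousOrderZero
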